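import Pool.Agent.N554.HVZ.Def
import Pool.Agent.N554.HKS.Main

set_option autoImplicit false

/-!
# Project HV, leaf PM: the word `u0` is a primitive morphic word (helper234)
-/

namespace Pool.Agent.N234.HVZ

open Pool.Agent.N554.HKS (ext seg Lang FixedPoint Primitive seg_length seg_append ext_append)
open Pool.Agent.N554.HVZ

lemma d0_a (n : ℕ) : d0 (4 * n) = 0 := by
  cases n with
  | zero => simp [d0]
  | succ n =>
    have h : 4 * (n + 1) = (4 * n + 3) + 1 := by ring
    rw [h, d0, if_pos (by omega)]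

lemma d0_b (n : ℕ) : d0 (4 * n + 1) = d0 n := by
  rw [d0, if_neg (by omega), if_neg (by omega)]
  congr 1
  omega

lemma d0_c (n : ℕ) : d0 (4 * n + 2) = d0 n := by
  rw [d0, if_neg (by omega), if_neg (by omega)]
  congr 1
  omega

lemma d0_d (n : ℕ) : d0 (4 * n + 3) = 1 := by
  rw [d0, if_neg (by omega), if_pos (by omega)]

lemma seg_one {A : Type*} (u : ℕ → A) (i : ℕ) : seg u i 1 = [u i] := by
  simp [seg, List.range_succ]

lemma ext_single {A B : Type*} (f : A → List B) (a : A) : ext f [a] = f a := by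
  simp [ext]

lemma ext_phi0 (n : ℕ) : ext phi0 (seg d0 0 n) = seg d0 0 (4 * n) := by
  induction n with
  | zero => simp [seg, ext]
  | succ n ih =>
    rw [seg_append, ext_append, ih, mul_add, seg_append d0 0 (4 * n) (4 * 1)]
    congr 1
    rw [seg_one, ext_single, Nat.zero_add]
    have h1 : seg d0 (0 + 4 * n) (4 * 1) = [0, d0 n, d0 n, 1] := by
      simp [seg, List.range_succ, d0_a, d0_b, d0_c, d0_d]
    rw [h1]
    generalize d0 n = a
    revert a
    decide

lemma ext_mu0 (n : ℕ) : ext mu0 (seg d0 0 n) = seg u0 0 (3 * n) := by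
  induction n with
  | zero => simp [seg, ext]
  | succ n ih =>
    rw [seg_append, ext_append, ih, mul_add, seg_append u0 0 (3 * n) (3 * 1)]
    congr 1
    rw [seg_one, ext_single, Nat.zero_add]
    have e0 : u0 (3 * n) = (mu0 (d0 n)).getD 0 0 := by
      unfold u0
      rw [show 3 * n / 3 = n by omega, show 3 * n % 3 = 0 by omega]
    have e1 : u0 (3 * n + 1) = (mu0 (d0 n)).getD 1 0 := by
      unfold u0
      rw [show (3 * n + 1) / 3 = n by omega, show (3 * n + 1) % 3 = 1 by omega]
    have e2 : u0 (3 * n + 2) = (mu0 (d0 n)).getD 2 0 := by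
      unfold u0
      rw [show (3 * n + 2) / 3 = n by omega, show (3 * n + 2) % 3 = 2 by omega]
    have h1 : seg u0 (0 + 3 * n) (3 * 1)
        = [(mu0 (d0 n)).getD 0 0, (mu0 (d0 n)).getD 1 0, (mu0 (d0 n)).getD 2 0] := by
      rw [← e0, ← e1, ← e2]
      simp [seg, List.range_succ]
    rw [h1]
    generalize d0 n = a
    revert a
    decide

theorem PM_proof : PM := by
  refine ⟨Fin 2, inferInstance, phi0, d0, mu0, ?_, ?_, ?_, ?_⟩
  · refine ⟨1, le_refl _, ?_⟩
    intro a b
    rw [Function.iterate_one, ext_single]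
    revert a b
    decide
  · intro n
    exact ⟨4 * n, ext_phi0 n⟩
  · intro n
    exact ⟨3 * n, ext_mu0 n⟩
  · intro L
    refine ⟨L, ?_⟩
    rw [ext_mu0, seg_length]
    omega

end Pool.Agent.N234.HVZ
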